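import Pool.Agent.helper66.WD.Spec

set_option autoImplicit false

universe u

namespace Pool.Agent.WD

theorem HHL : HHL_stmt.{u} := by
  intro B _ d c w A P v a p hv
  have key : ∀ j : Fin w, (∏ l ∈ Finset.univ.erase j, P l) = (∏ l, P l) * v j := by
    intro j
    rw [← Finset.mul_prod_erase Finset.univ P (Finset.mem_univ j)]
    calc (∏ l ∈ Finset.univ.erase j, P l) = (P j * v j) * ∏ l ∈ Finset.univ.erase j, P l := by rw [hv j, one_mul]
      _ = _ := by ring
  have h1 : (∑ j, (p j : B) * d (P j) * ∏ l ∈ Finset.univ.erase j, P l) =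
      (∏ j, P j) * ∑ j, (p j : B) * d (P j) * v j := by
    rw [Finset.mul_sum]
    refine Finset.sum_congr rfl fun j _ => ?_
    rw [key j]
    ring
  unfold hh hl
  rw [h1]
  ring

end Pool.Agent.WD
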